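import Pool.Agent.P.MP_411dac_pr.Chain

/-! On the line, the stable multi-matching with two stubs at every point percolates. -/

set_option autoImplicit false

namespace Pool.Agent.Results.MP_411dac_pr.LineTwo

open MeasureTheory ProbabilityTheory Pool.Agent.P.SM

theorem result {Ω : Type*} [MeasurableSpace Ω] (P : Measure Ω) [IsProbabilityMeasure P]
    (X : ℤ → Ω → ℝ) (hm : ∀ i, Measurable (X i)) (hi : iIndepFun X P)
    (hl : ∀ i, P.map (X i) = expMeasure 1) :
    ∃ A, MeasurableSet A ∧ 0 < P A ∧ ∀ ω ∈ A, ∃ G, Stable (pos fun i => X i ω) G ∧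
      (∀ G', Stable (pos fun i => X i ω) G' → G' = G) ∧ {v | G.Reachable 0 v}.Infinite :=
  main P X hm hi hl

end Pool.Agent.Results.MP_411dac_pr.LineTwo
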